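import Pool.Agent.MP_e8c887_nt.H44.Series

/-!
The orbit in homogeneous coordinates: pairs of coprime polynomials.
-/

namespace Pool.Agent.MP_e8c887_nt.H44

open Polynomial

/-- Homogeneous numerator, of degree 4r+5. -/
def Nh {R : Type*} [CommRing R] (r : ℕ) (x y : R) : R := x * Mh r x y

/-- Homogeneous denominator, of degree 4r+5. -/
def Dh {R : Type*} [CommRing R] (r : ℕ) (t x y : R) : R :=
  y * (x ^ 2 * y ^ (4 * r + 2) - t * Mh r x y)

variable {k : Type*} [Field k]

/-- The invariant kept along the orbit. -/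
def Good (x y : k[X]) : Prop :=
  IsCoprime x y ∧ y.coeff 0 ≠ 0 ∧ x.natDegree < y.natDegree

lemma natDegree_Mh (r : ℕ) {x y : k[X]} (h : x.natDegree < y.natDegree) :
    (Mh r x y).natDegree = (4 * r + 4) * y.natDegree := by
  unfold Mh
  have h1 : (x ^ (r + 1) - y ^ (r + 1)).natDegree = (r + 1) * y.natDegree := by
    rw [natDegree_sub_eq_right_of_natDegree_lt]
    · rw [natDegree_pow]
    · rw [natDegree_pow, natDegree_pow]
      exact Nat.mul_lt_mul_of_pos_left h (Nat.succ_pos r)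
  have h2 : ((x ^ (r + 1) - y ^ (r + 1)) ^ 4).natDegree = (4 * r + 4) * y.natDegree := by
    rw [natDegree_pow, h1]; ring
  rw [natDegree_add_eq_right_of_natDegree_lt, h2]
  rw [h2]
  refine lt_of_le_of_lt (natDegree_add_le _ _) (max_lt ?_ ?_)
  · refine lt_of_le_of_lt natDegree_mul_le ?_
    rw [natDegree_pow, natDegree_pow]
    nlinarith
  · refine lt_of_le_of_lt natDegree_mul_le ?_
    rw [natDegree_pow]
    nlinarith

lemma natDegree_Dh (r : ℕ) {x y : k[X]} (h : x.natDegree < y.natDegree) :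
    (Dh r X x y).natDegree = (4 * r + 5) * y.natDegree + 1 := by
  have hy : y ≠ 0 := by rintro rfl; simp at h
  have hM := natDegree_Mh r h
  have hM0 : Mh r x y ≠ 0 := by
    intro h0
    rw [h0, natDegree_zero] at hM
    have : 0 < (4 * r + 4) * y.natDegree := Nat.mul_pos (by omega) (by omega)
    omega
  have h1 : (X * Mh r x y).natDegree = (4 * r + 4) * y.natDegree + 1 := by
    rw [natDegree_X_mul hM0, hM]
  have h2 : (x ^ 2 * y ^ (4 * r + 2) - X * Mh r x y).natDegree = (4 * r + 4) * y.natDegree + 1 := by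
    rw [natDegree_sub_eq_right_of_natDegree_lt, h1]
    rw [h1]
    refine lt_of_le_of_lt natDegree_mul_le ?_
    rw [natDegree_pow, natDegree_pow]
    nlinarith
  have h3 : x ^ 2 * y ^ (4 * r + 2) - X * Mh r x y ≠ 0 := by
    intro h0
    rw [h0, natDegree_zero] at h2
    omega
  unfold Dh
  rw [natDegree_mul hy h3, h2]; ring

lemma natDegree_Nh (r : ℕ) {x y : k[X]} (h : x.natDegree < y.natDegree) :
    (Nh r x y).natDegree < (4 * r + 5) * y.natDegree := by
  unfold Nh
  refine lt_of_le_of_lt natDegree_mul_le ?_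
  rw [natDegree_Mh r h]
  nlinarith

lemma not_dvd_both {R : Type*} [CommRing R] (r : ℕ) {t x y z : R} (hc : IsCoprime x y)
    (hz : Prime z) (hzX : ¬ z ∣ t) (h1 : z ∣ Nh r x y) : ¬ z ∣ Dh r t x y := by
  intro h2
  have hxy : ¬ (z ∣ x ∧ z ∣ y) := fun h => hz.not_isUnit (hc.isUnit_of_dvd' h.1 h.2)
  have hMx : z ∣ x → z ∣ Mh r x y → z ∣ y := by
    intro hx hM
    have e : y ^ (4 * r + 4) = Mh r x y - x * (x * y ^ (4 * r + 2) + y ^ (4 * r + 3) +
      x ^ r * ((x ^ (r + 1)) ^ 3 - 4 * (x ^ (r + 1)) ^ 2 * y ^ (r + 1) +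
        6 * x ^ (r + 1) * (y ^ (r + 1)) ^ 2 - 4 * (y ^ (r + 1)) ^ 3)) := by
      unfold Mh; ring
    exact hz.dvd_of_dvd_pow (e ▸ dvd_sub hM (hx.mul_right _))
  have hMy : z ∣ y → z ∣ Mh r x y → z ∣ x := by
    intro hy hM
    have e : x ^ (4 * r + 4) = Mh r x y - y * (x ^ 2 * y ^ (4 * r + 1) + x * y ^ (4 * r + 2) +
      y ^ r * ((y ^ (r + 1)) ^ 3 - 4 * (y ^ (r + 1)) ^ 2 * x ^ (r + 1) +
        6 * y ^ (r + 1) * (x ^ (r + 1)) ^ 2 - 4 * (x ^ (r + 1)) ^ 3)) := by
      unfold Mh; ring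
    exact hz.dvd_of_dvd_pow (e ▸ dvd_sub hM (hy.mul_right _))
  unfold Nh at h1
  unfold Dh at h2
  rcases hz.dvd_or_dvd h2 with hy | hD
  · rcases hz.dvd_or_dvd h1 with hx | hM
    · exact hxy ⟨hx, hy⟩
    · exact hxy ⟨hMy hy hM, hy⟩
  · rcases hz.dvd_or_dvd h1 with hx | hM
    · have : z ∣ t * Mh r x y := by
        have e : t * Mh r x y = x * (x * y ^ (4 * r + 2)) -
          (x ^ 2 * y ^ (4 * r + 2) - t * Mh r x y) := by ring
        exact e ▸ dvd_sub (hx.mul_right _) hD
      rcases hz.dvd_or_dvd this with h | h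
      · exact hzX h
      · exact hxy ⟨hx, hMx hx h⟩
    · have : z ∣ x ^ 2 * y ^ (4 * r + 2) := by
        have e : x ^ 2 * y ^ (4 * r + 2) =
          (x ^ 2 * y ^ (4 * r + 2) - t * Mh r x y) + t * Mh r x y := by ring
        exact e ▸ dvd_add hD (hM.mul_left _)
      rcases hz.dvd_or_dvd this with h | h
      · have hx := hz.dvd_of_dvd_pow h
        exact hxy ⟨hx, hMx hx hM⟩
      · have hy := hz.dvd_of_dvd_pow h
        exact hxy ⟨hMy hy hM, hy⟩

lemma good_of_rel (r e : ℕ) (he : e ≤ 1) {x y x' y' : k[X]} (h : Good x y)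
    (h1 : X ^ e * x' = Nh r x y) (h2 : X ^ e * y' = Dh r X x y) (h0 : y'.coeff 0 ≠ 0) :
    Good x' y' ∧ y'.natDegree + e = (4 * r + 5) * y.natDegree + 1 := by
  obtain ⟨hc, hy, hd⟩ := h
  have hy' : y' ≠ 0 := by rintro rfl; simp at h0
  have d2 : y'.natDegree + e = (4 * r + 5) * y.natDegree + 1 := by
    rw [← natDegree_Dh r hd, ← h2, natDegree_X_pow_mul _ hy']
  refine ⟨⟨?_, h0, ?_⟩, d2⟩
  · apply isCoprime_of_prime_dvd
    · exact fun h => hy' h.2
    · intro z hz hzx hzy
      refine not_dvd_both r hc hz ?_ (h1 ▸ hzx.mul_left _) (h2 ▸ hzy.mul_left _)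
      intro hzX
      have hXz : (X : k[X]) ∣ z :=
        ((hz.irreducible.associated_of_dvd irreducible_X hzX).symm).dvd
      exact h0 (X_dvd_iff.1 (hXz.trans hzy))
  · have d1 := natDegree_Nh r hd
    by_cases hx' : x' = 0
    · rw [hx', natDegree_zero]
      have : 0 < (4 * r + 5) * y.natDegree := Nat.mul_pos (by omega) (by omega)
      omega
    · rw [← h1, natDegree_X_pow_mul _ hx'] at d1
      omega

open Classical in
lemma exists_step (r : ℕ) {x y : k[X]} (h : Good x y) :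
    ∃ x' y' : k[X], X ^ (if x.coeff 0 = 0 then 1 else 0) * x' = Nh r x y ∧
      X ^ (if x.coeff 0 = 0 then 1 else 0) * y' = Dh r X x y ∧ y'.coeff 0 ≠ 0 := by
  have hy := h.2.1
  by_cases hx : x.coeff 0 = 0
  · rw [if_pos hx]
    obtain ⟨u, rfl⟩ := X_dvd_iff.2 hx
    refine ⟨u * Mh r (X * u) y, y * (X * u ^ 2 * y ^ (4 * r + 2) - Mh r (X * u) y), ?_, ?_, ?_⟩
    · unfold Nh; ring
    · unfold Dh; ring
    · rw [coeff_zero_eq_eval_zero] at hy ⊢
      have : eval 0 (Mh r (X * u) y) = (eval 0 y) ^ (4 * r + 4) := by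
        have := map_Mh (evalRingHom (0 : k)) r (X * u) y
        simp only [coe_evalRingHom] at this
        rw [this]
        simp [Mh]; ring
      simp [this, hy]
  · rw [if_neg hx]
    refine ⟨Nh r x y, Dh r X x y, by simp, by simp, ?_⟩
    rw [coeff_zero_eq_eval_zero] at hy hx ⊢
    simp [Dh, hx, hy]

open Classical in
lemma exists_orbit (r : ℕ) : ∃ x y : ℕ → k[X], x 0 = 1 ∧ y 0 = X + 1 ∧ ∀ n, Good (x n) (y n) ∧
    X ^ (if (x n).coeff 0 = 0 then 1 else 0) * x (n + 1) = Nh r (x n) (y n) ∧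
    X ^ (if (x n).coeff 0 = 0 then 1 else 0) * y (n + 1) = Dh r X (x n) (y n) ∧
    (y (n + 1)).natDegree + (if (x n).coeff 0 = 0 then 1 else 0) =
      (4 * r + 5) * (y n).natDegree + 1 := by
  have h0 : Good (1 : k[X]) (X + 1) := by
    refine ⟨isCoprime_one_left, by simp, ?_⟩
    have : (X + 1 : k[X]).natDegree = 1 := by simpa using natDegree_X_add_C (1 : k)
    simp [this]
  have hstep : ∀ s : {s : k[X] × k[X] // Good s.1 s.2}, ∃ s' : {s : k[X] × k[X] // Good s.1 s.2},
      X ^ (if s.1.1.coeff 0 = 0 then 1 else 0) * s'.1.1 = Nh r s.1.1 s.1.2 ∧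
      X ^ (if s.1.1.coeff 0 = 0 then 1 else 0) * s'.1.2 = Dh r X s.1.1 s.1.2 ∧
      s'.1.2.natDegree + (if s.1.1.coeff 0 = 0 then 1 else 0) =
        (4 * r + 5) * s.1.2.natDegree + 1 := by
    rintro ⟨⟨x, y⟩, hs⟩
    obtain ⟨x', y', h1, h2, h3⟩ := exists_step r hs
    have := good_of_rel r _ (by split_ifs <;> simp) hs h1 h2 h3
    exact ⟨⟨(x', y'), this.1⟩, h1, h2, this.2⟩
  choose f hf using hstep
  refine ⟨fun n => (f^[n] ⟨(1, X + 1), h0⟩).1.1, fun n => (f^[n] ⟨(1, X + 1), h0⟩).1.2,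
    rfl, rfl, fun n => ⟨(f^[n] ⟨(1, X + 1), h0⟩).2, ?_⟩⟩
  simp only [Function.iterate_succ_apply']
  exact hf _

/-- The power series attached to a point with homogeneous coordinates x, y. -/
noncomputable def toSeries (x y : k[X]) : PowerSeries k := (x : PowerSeries k) * (y : PowerSeries k)⁻¹

lemma toSeries_mul {x y : k[X]} (hy : y.coeff 0 ≠ 0) :
    toSeries x y * (y : PowerSeries k) = x := by
  unfold toSeries
  rw [mul_assoc, PowerSeries.inv_mul_cancel _ (by simpa using hy), mul_one]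

lemma constantCoeff_toSeries {x y : k[X]} (hy : y.coeff 0 ≠ 0) :
    PowerSeries.constantCoeff (toSeries x y) = 0 ↔ x.coeff 0 = 0 := by
  unfold toSeries
  simp [hy]

lemma rel_toSeries (r e : ℕ) {x y x' y' : k[X]} (hy : y.coeff 0 ≠ 0) (hy' : y'.coeff 0 ≠ 0)
    (h1 : X ^ e * x' = Nh r x y) (h2 : X ^ e * y' = Dh r X x y) :
    Rel r (toSeries x y) (toSeries x' y') := by
  have e1 := congrArg (coeToPowerSeries.ringHom (R := k)) h1
  have e2 := congrArg (coeToPowerSeries.ringHom (R := k)) h2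
  simp only [Nh, Dh, map_mul, map_pow, map_sub, map_Mh, coeToPowerSeries.ringHom_apply,
    coe_X] at e1 e2
  have a1 := toSeries_mul (x := x) hy
  have a2 := toSeries_mul (x := x') hy'
  have hy0 : (y : PowerSeries k) ≠ 0 := by
    intro h
    rw [coe_eq_zero_iff] at h
    simp [h] at hy
  unfold Rel
  generalize toSeries x y = z at *
  generalize toSeries x' y' = w at *
  rw [← a1, Mh_homog] at e1 e2
  rw [← a2] at e1
  apply mul_left_cancel₀ (pow_ne_zero (4 * r + 5) hy0)
  linear_combination e1 - w * e2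

lemma exists_orbit' (r : ℕ) : ∃ (x y : ℕ → k[X]) (e : ℕ → ℕ), ∀ n,
    ((e n = 1 ∧ (x n).coeff 0 = 0) ∨ (e n = 0 ∧ (x n).coeff 0 ≠ 0)) ∧ Good (x n) (y n) ∧
    X ^ e n * x (n + 1) = Nh r (x n) (y n) ∧ X ^ e n * y (n + 1) = Dh r X (x n) (y n) ∧
    (y (n + 1)).natDegree + e n = (4 * r + 5) * (y n).natDegree + 1 := by
  classical
  obtain ⟨x, y, -, -, h⟩ := exists_orbit (k := k) r
  refine ⟨x, y, _, fun n => ⟨?_, h n⟩⟩
  by_cases h0 : (x n).coeff 0 = 0 <;> simp [h0]

theorem exists_orbit_aperiodic (r : ℕ) [Fact (r + 2).Prime] :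
    ∃ (x y : ℕ → (ZMod (r + 2))[X]) (e : ℕ → ℕ), (∀ n, e n ≤ 1 ∧ Good (x n) (y n) ∧
      X ^ e n * x (n + 1) = Nh r (x n) (y n) ∧ X ^ e n * y (n + 1) = Dh r X (x n) (y n) ∧
      (y (n + 1)).natDegree + e n = (4 * r + 5) * (y n).natDegree + 1) ∧
      ∀ m s, 0 < s → ¬ ∀ j, e (m + j) = e (m + s + j) := by
  obtain ⟨x, y, e, h'⟩ := exists_orbit' (k := ZMod (r + 2)) r
  have he : ∀ n, e n ≤ 1 := fun n => by rcases (h' n).1 with h | h <;> omega
  have h := fun n => (h' n).2
  refine ⟨x, y, e, fun n => ⟨he n, h n⟩, ?_⟩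
  intro m s hs hper
  have hmono : StrictMono fun n => (y n).natDegree := by
    apply strictMono_nat_of_lt_succ
    intro n
    have h1 := (h n).2.2.2
    have h2 := (h n).1.2.2
    have h3 := he n
    nlinarith
  have hrel : ∀ n, Rel r (toSeries (x n) (y n)) (toSeries (x (n + 1)) (y (n + 1))) := fun n =>
    rel_toSeries r _ (h n).1.2.1 (h (n + 1)).1.2.1 (h n).2.1 (h n).2.2.1
  have heq := itinerary_injective (fun j => toSeries (x (m + j)) (y (m + j)))
    (fun j => toSeries (x (m + s + j)) (y (m + s + j))) (fun j => hrel (m + j))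
    (fun j => hrel (m + s + j)) (fun j => by
      rw [constantCoeff_toSeries (h _).1.2.1, constantCoeff_toSeries (h _).1.2.1]
      have := hper j
      rcases (h' (m + j)).1 with h1 | h1 <;> rcases (h' (m + s + j)).1 with h2 | h2
      · simp [h1.2, h2.2]
      · omega
      · omega
      · simp [h1.2, h2.2])
  simp only [add_zero] at heq
  have a1 := toSeries_mul (x := x m) (h m).1.2.1
  have a2 := toSeries_mul (x := x (m + s)) (h (m + s)).1.2.1
  have a3 : x m * y (m + s) = x (m + s) * y m := by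
    apply coe_injective
    simp only [coe_mul]
    rw [← a1, ← a2, heq]; ring
  have a4 : y (m + s) ∣ y m :=
    (h (m + s)).1.1.symm.dvd_of_dvd_mul_left (a3 ▸ Dvd.intro_left _ rfl)
  have hy0 : y m ≠ 0 := by
    intro h0
    have := (h m).1.2.1
    simp [h0] at this
  have a5 := natDegree_le_of_dvd a4 hy0
  have a6 := hmono (show m < m + s by omega)
  simp only at a6
  omega

/-- Digits lemma: if h(n+1) + e(n) = d h(n) + 1 with e(n) in {0,1}, d at least 3, and e is not
eventually periodic, then h(n)/d^n tends to an irrational number. -/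
theorem irrational_limit (d : ℕ) (hd : 3 ≤ d) (h e : ℕ → ℕ) (he : ∀ n, e n ≤ 1)
    (hrec : ∀ n, h (n + 1) + e n = d * h n + 1)
    (hap : ∀ m s, 0 < s → ¬ ∀ j, e (m + j) = e (m + s + j)) :
    ∃ L : ℝ, Irrational L ∧
      Filter.Tendsto (fun n => (h n : ℝ) / (d : ℝ) ^ n) Filter.atTop (nhds L) := by
  have hd' : (3 : ℝ) ≤ d := by exact_mod_cast hd
  have hd0 : (0 : ℝ) < d := by linarith
  have hrec' : ∀ n, (h (n + 1) : ℝ) + e n = d * h n + 1 := fun n => by exact_mod_cast hrec n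
  have he' : ∀ n, (e n : ℝ) ≤ 1 := fun n => by exact_mod_cast he n
  have he0 : ∀ n, (0 : ℝ) ≤ e n := fun n => Nat.cast_nonneg _
  set a : ℕ → ℝ := fun n => (h n : ℝ) / (d : ℝ) ^ n with ha
  set b : ℕ → ℝ := fun n => ((h n : ℝ) + 1 / 2) / (d : ℝ) ^ n with hb
  have hmono : Monotone a := by
    apply monotone_nat_of_le_succ
    intro n
    simp only [ha]
    rw [div_le_div_iff₀ (by positivity) (by positivity), pow_succ]
    have := hrec' n
    have := he' n
    have : (0 : ℝ) < (d : ℝ) ^ n := by positivity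
    nlinarith
  have hanti : Antitone b := by
    apply antitone_nat_of_succ_le
    intro n
    simp only [hb]
    rw [div_le_div_iff₀ (by positivity) (by positivity), pow_succ]
    have := hrec' n
    have := he0 n
    have : (0 : ℝ) < (d : ℝ) ^ n := by positivity
    nlinarith
  have hab : ∀ n, a n ≤ b n := fun n => by
    simp only [ha, hb]
    gcongr
    linarith
  have hab' : ∀ m n, a m ≤ b n := fun m n =>
    (hmono (le_max_left m n)).trans ((hab _).trans (hanti (le_max_right m n)))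
  have hbdd : BddAbove (Set.range a) := ⟨b 0, by rintro _ ⟨m, rfl⟩; exact hab' m 0⟩
  refine ⟨⨆ n, a n, ?_, tendsto_atTop_ciSup hmono hbdd⟩
  set L := ⨆ n, a n with hL
  have h1 : ∀ n, a n ≤ L := fun n => le_ciSup hbdd n
  have h2 : ∀ n, L ≤ b n := fun n => ciSup_le fun m => hab' m n
  set ρ : ℕ → ℝ := fun n => (d : ℝ) ^ n * L - h n with hρ
  have r0 : ∀ n, 0 ≤ ρ n := fun n => by
    have := h1 n
    simp only [ha] at this
    rw [div_le_iff₀ (by positivity)] at this
    simp only [hρ]; linarith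
  have r1 : ∀ n, ρ n ≤ 1 / 2 := fun n => by
    have := h2 n
    simp only [hb] at this
    rw [le_div_iff₀ (by positivity)] at this
    simp only [hρ]; linarith
  have rrec : ∀ n, ρ (n + 1) = d * ρ n - 1 + e n := fun n => by
    simp only [hρ]
    have := hrec' n
    rw [pow_succ]; linarith
  have rstep : ∀ m n, ρ m = ρ n → e m = e n ∧ ρ (m + 1) = ρ (n + 1) := by
    intro m n hmn
    have e1 := rrec m
    have e2 := rrec n
    have : e m = e n := by
      have b1 := r0 (m + 1)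
      have b2 := r1 (m + 1)
      have b3 := r0 (n + 1)
      have b4 := r1 (n + 1)
      have c1 := he m
      have c2 := he n
      rw [hmn] at e1
      by_contra hne
      rcases (by omega : (e m = 0 ∧ e n = 1) ∨ (e m = 1 ∧ e n = 0)) with h | h
      · rw [h.1] at e1; rw [h.2] at e2; push_cast at e1 e2; linarith
      · rw [h.1] at e1; rw [h.2] at e2; push_cast at e1 e2; linarith
    exact ⟨this, by rw [e1, e2, hmn, this]⟩
  rintro ⟨q, hq⟩
  have hden : (0 : ℝ) < q.den := by exact_mod_cast q.pos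
  let z : ℕ → ℤ := fun n => (d : ℤ) ^ n * q.num - h n * q.den
  have hz : ∀ n, (z n : ℝ) = ρ n * q.den := fun n => by
    simp only [z, hρ, ← hq]
    push_cast
    rw [Rat.cast_def]
    field_simp
  have hzmem : ∀ n, z n ∈ Set.Icc (0 : ℤ) q.den := fun n => by
    constructor
    · have : (0 : ℝ) ≤ z n := by rw [hz]; exact mul_nonneg (r0 n) hden.le
      exact_mod_cast this
    · have : (z n : ℝ) ≤ q.den := by rw [hz]; nlinarith [r1 n]
      exact_mod_cast this
  obtain ⟨m, n, hmn, hzz⟩ := (Set.finite_Icc (0 : ℤ) q.den).exists_lt_map_eq_of_forall_mem hzmem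
  have hρmn : ρ m = ρ n := by
    have : (z m : ℝ) = z n := by rw [hzz]
    rw [hz, hz] at this
    exact mul_right_cancel₀ hden.ne' this
  obtain ⟨s, rfl⟩ := Nat.exists_eq_add_of_lt hmn
  apply hap m (s + 1) (Nat.succ_pos s)
  have : ∀ j, ρ (m + j) = ρ (m + (s + 1) + j) := by
    intro j
    induction j with
    | zero => simpa [add_assoc] using hρmn
    | succ j ih => exact (rstep _ _ ih).2
  exact fun j => (rstep _ _ (this j)).1

end Pool.Agent.MP_e8c887_nt.H44
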