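import Mathlib

/-!
Local dynamics at the place t = 0 of the map f(z) = z M(z) / (z^2 - t M(z)),
M(z) = z^2 + z + (z^(p-1) - 1)^4, on power series over the field with p elements.
-/

namespace Pool.Agent.MP_e8c887_nt.H44

open PowerSeries

/-- Homogeneous form of M, of degree 4r+4 (with p = r+2). -/
def Mh {R : Type*} [CommRing R] (r : ℕ) (x y : R) : R :=
  x ^ 2 * y ^ (4 * r + 2) + x * y ^ (4 * r + 3) + (x ^ (r + 1) - y ^ (r + 1)) ^ 4

lemma Mh_homog {R : Type*} [CommRing R] (r : ℕ) (z y : R) :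
    Mh r (z * y) y = y ^ (4 * r + 4) * Mh r z 1 := by
  unfold Mh
  have : (z * y) ^ (r + 1) - y ^ (r + 1) = y ^ (r + 1) * (z ^ (r + 1) - 1) := by ring
  rw [this]; ring

lemma map_Mh {R S : Type*} [CommRing R] [CommRing S] (f : R →+* S) (r : ℕ) (x y : R) :
    f (Mh r x y) = Mh r (f x) (f y) := by
  simp [Mh]

lemma Mh_sub {R : Type*} [CommRing R] (r : ℕ) (z w : R) :
    ∃ g : R, Mh r z 1 - Mh r w 1 = (z - w) * (z + w + 1 + g *
      ((z ^ (r + 1) - 1) ^ 3 + (z ^ (r + 1) - 1) ^ 2 * (w ^ (r + 1) - 1) +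
        (z ^ (r + 1) - 1) * (w ^ (r + 1) - 1) ^ 2 + (w ^ (r + 1) - 1) ^ 3)) := by
  obtain ⟨g, hg⟩ := sub_dvd_pow_sub_pow z w (r + 1)
  refine ⟨g, ?_⟩
  unfold Mh
  have h : z ^ (r + 1) = w ^ (r + 1) + (z - w) * g := by rw [← hg]; ring
  simp only [one_pow, mul_one]
  generalize z ^ (r + 1) = a at *
  generalize w ^ (r + 1) = b at *
  subst h
  ring

variable {k : Type*} [Field k]

/-- One step of the dynamics, written without division. -/
def Rel (r : ℕ) (z e : k⟦X⟧) : Prop :=
  e * (z ^ 2 - X * Mh r z 1) = z * Mh r z 1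

lemma key_identity {r : ℕ} {z e w f G : k⟦X⟧} (h1 : Rel r z e) (h2 : Rel r w f)
    (hG : Mh r z 1 - Mh r w 1 = (z - w) * G) :
    (e - f) * ((z ^ 2 - X * Mh r z 1) * (w ^ 2 - X * Mh r w 1)) =
      (z - w) * (z * w * (G * w - Mh r w 1) - X * Mh r z 1 * Mh r w 1) := by
  unfold Rel at h1 h2
  generalize Mh r z 1 = a at *
  generalize Mh r w 1 = b at *
  have ha : a = b + (z - w) * G := by rw [← hG]; ring
  linear_combination (w ^ 2 - X * b) * h1 - (z ^ 2 - X * a) * h2 + (z * w ^ 2) * ha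

lemma back_zero {r j : ℕ} {z e w f : k⟦X⟧} (h1 : Rel r z e) (h2 : Rel r w f)
    (hz : constantCoeff z = 0) (hw : constantCoeff w = 0) (h : X ^ j ∣ e - f) :
    X ^ (j + 1) ∣ z - w := by
  obtain ⟨g, hg⟩ := Mh_sub r z w
  have key := key_identity h1 h2 hg
  have hMz : constantCoeff (Mh r z 1) = 1 := by
    rw [map_Mh, hz]; simp [Mh]; norm_num
  have hMw : constantCoeff (Mh r w 1) = 1 := by
    rw [map_Mh, hw]; simp [Mh]; norm_num
  generalize (z + w + 1 + g *
      ((z ^ (r + 1) - 1) ^ 3 + (z ^ (r + 1) - 1) ^ 2 * (w ^ (r + 1) - 1) +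
        (z ^ (r + 1) - 1) * (w ^ (r + 1) - 1) ^ 2 + (w ^ (r + 1) - 1) ^ 3)) = G at *
  generalize Mh r z 1 = a at *
  generalize Mh r w 1 = b at *
  obtain ⟨u, rfl⟩ := X_dvd_iff.2 hz
  obtain ⟨v, rfl⟩ := X_dvd_iff.2 hw
  have hX : (X : k⟦X⟧) ≠ 0 := X_ne_zero
  have key2 : (e - f) * X * ((X * u ^ 2 - a) * (X * v ^ 2 - b)) =
      (X * u - X * v) * (X * u * v * (G * (X * v) - b) - a * b) := by
    apply mul_left_cancel₀ hX
    linear_combination key
  have hU : IsUnit (X * u * v * (G * (X * v) - b) - a * b) := by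
    rw [isUnit_iff_constantCoeff]
    simp [hMz, hMw]
  have : X ^ (j + 1) ∣ (X * u - X * v) * (X * u * v * (G * (X * v) - b) - a * b) := by
    rw [← key2, pow_succ]
    exact Dvd.dvd.mul_right (mul_dvd_mul_right h _) _
  exact (hU.dvd_mul_right).1 this

lemma back_ne {r j : ℕ} {z e w f : k⟦X⟧} (h1 : Rel r z e) (h2 : Rel r w f)
    (hz : constantCoeff z ≠ 0) (hzw : constantCoeff w = constantCoeff z)
    (hp : constantCoeff z ^ (r + 1) = 1) (h : X ^ j ∣ e - f) :
    X ^ j ∣ z - w := by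
  obtain ⟨g, hg⟩ := Mh_sub r z w
  have key := key_identity h1 h2 hg
  have hMw : constantCoeff (Mh r w 1) = constantCoeff z ^ 2 + constantCoeff z := by
    rw [map_Mh, hzw]; simp [Mh, hp]
  have hG : constantCoeff (z + w + 1 + g *
      ((z ^ (r + 1) - 1) ^ 3 + (z ^ (r + 1) - 1) ^ 2 * (w ^ (r + 1) - 1) +
        (z ^ (r + 1) - 1) * (w ^ (r + 1) - 1) ^ 2 + (w ^ (r + 1) - 1) ^ 3)) =
        2 * constantCoeff z + 1 := by
    simp [hzw, hp]; ring
  generalize (z + w + 1 + g *
      ((z ^ (r + 1) - 1) ^ 3 + (z ^ (r + 1) - 1) ^ 2 * (w ^ (r + 1) - 1) +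
        (z ^ (r + 1) - 1) * (w ^ (r + 1) - 1) ^ 2 + (w ^ (r + 1) - 1) ^ 3)) = G at *
  have hU : IsUnit (z * w * (G * w - Mh r w 1) - X * Mh r z 1 * Mh r w 1) := by
    rw [isUnit_iff_constantCoeff]
    have : constantCoeff (z * w * (G * w - Mh r w 1) - X * Mh r z 1 * Mh r w 1) =
        constantCoeff z ^ 4 := by
      simp only [map_sub, map_mul, hG, hMw, hzw, constantCoeff_X]; ring
    rw [this]
    exact (pow_ne_zero 4 hz).isUnit
  have : X ^ j ∣ (z - w) * (z * w * (G * w - Mh r w 1) - X * Mh r z 1 * Mh r w 1) := by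
    rw [← key]
    exact Dvd.dvd.mul_right h _
  exact (hU.dvd_mul_right).1 this

lemma next_coeff {r : ℕ} {z e : k⟦X⟧} (h1 : Rel r z e)
    (hz : constantCoeff z ≠ 0) (hp : constantCoeff z ^ (r + 1) = 1) :
    constantCoeff e = constantCoeff z + 1 := by
  have h := congrArg constantCoeff h1
  simp only [map_mul, map_sub, map_pow, constantCoeff_X, map_Mh, map_one] at h
  simp only [Mh, hp, one_pow, mul_one, sub_self] at h
  apply mul_right_cancel₀ (pow_ne_zero 2 hz)
  linear_combination h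

section prime

variable {r : ℕ} [Fact (r + 2).Prime]

lemma pow_eq_one_of_ne {c : ZMod (r + 2)} (hc : c ≠ 0) : c ^ (r + 1) = 1 :=
  ZMod.pow_card_sub_one_eq_one hc

lemma exists_zero (z : ℕ → (ZMod (r + 2))⟦X⟧) (hz : ∀ n, Rel r (z n) (z (n + 1))) (n : ℕ) :
    ∃ m, constantCoeff (z (n + m)) = 0 := by
  by_contra hcon
  push Not at hcon
  have h : ∀ m : ℕ, constantCoeff (z (n + m)) = constantCoeff (z n) + (m : ZMod (r + 2)) := by
    intro m
    induction m with
    | zero => simp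
    | succ m ih =>
      rw [← add_assoc, next_coeff (hz (n + m)) (hcon m) (pow_eq_one_of_ne (hcon m)), ih]
      push_cast; ring
  apply hcon (-constantCoeff (z n)).val
  rw [h]; simp

theorem itinerary_injective (z w : ℕ → (ZMod (r + 2))⟦X⟧)
    (hz : ∀ n, Rel r (z n) (z (n + 1))) (hw : ∀ n, Rel r (w n) (w (n + 1)))
    (h : ∀ n, constantCoeff (z n) = 0 ↔ constantCoeff (w n) = 0) : z 0 = w 0 := by
  have hc : ∀ m n, constantCoeff (z (n + m)) = 0 → constantCoeff (w n) = constantCoeff (z n) := by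
    intro m
    induction m with
    | zero => intro n hn; rw [add_zero] at hn; rw [hn, (h n).1 hn]
    | succ m ih =>
      intro n hn
      by_cases h0 : constantCoeff (z n) = 0
      · rw [h0, (h n).1 h0]
      · have h0' : constantCoeff (w n) ≠ 0 := fun hh => h0 ((h n).2 hh)
        have e1 := next_coeff (hz n) h0 (pow_eq_one_of_ne h0)
        have e2 := next_coeff (hw n) h0' (pow_eq_one_of_ne h0')
        have e3 := ih (n + 1) (by rw [← hn]; congr 2; ring)
        rw [e1, e2] at e3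
        exact add_right_cancel e3
  have hc' : ∀ n, constantCoeff (w n) = constantCoeff (z n) := fun n => by
    obtain ⟨m, hm⟩ := exists_zero z hz n
    exact hc m n hm
  have hd : ∀ j n, X ^ j ∣ z n - w n := by
    intro j
    induction j with
    | zero => intro n; simp
    | succ j ih =>
      have : ∀ m n, constantCoeff (z (n + m)) = 0 → X ^ (j + 1) ∣ z n - w n := by
        intro m
        induction m with
        | zero =>
          intro n hn
          rw [add_zero] at hn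
          exact back_zero (hz n) (hw n) hn ((h n).1 hn) (ih (n + 1))
        | succ m ihm =>
          intro n hn
          by_cases h0 : constantCoeff (z n) = 0
          · exact back_zero (hz n) (hw n) h0 ((h n).1 h0) (ih (n + 1))
          · exact back_ne (hz n) (hw n) h0 (hc' n) (pow_eq_one_of_ne h0)
              (ihm (n + 1) (by rw [← hn]; congr 2; ring))
      intro n
      obtain ⟨m, hm⟩ := exists_zero z hz n
      exact this m n hm
  rw [← sub_eq_zero]
  ext j
  simpa using X_pow_dvd_iff.1 (hd (j + 1) 0) j (Nat.lt_succ_self j)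

end prime

end Pool.Agent.MP_e8c887_nt.H44
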